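import Pool.Agent.N26.PP.DiagA

/-! PP-DIAG: diagonalisation with first coefficient a square at infinity (helper26, project PP of
helper874). -/

set_option autoImplicit false

open Polynomial Matrix Pool.Agent.N874.PP

namespace Pool.Agent.N26.PP

section aux

variable {k : Type} [Field k]

lemma HL.lt {p : k[X]} {i j : ℤ} {c : k} (h : HL p i c) (hij : i < j) : HL p j 0 := by
  rcases h.1 with rfl | h1
  · exact HL.zero j
  refine ⟨Or.inr (by omega), ?_⟩
  unfold cz
  split_ifs with h2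
  · exact coeff_eq_zero_of_natDegree_lt (by omega)
  · rfl

lemma HW.uniq {N : ℕ} {u : Fin 3 → k[X]} {n m : ℤ} {c e : Fin 3 → k} (h : HW N u n c)
    (h' : HW N u m e) (hc : c ≠ 0) (he : e ≠ 0) : n = m ∧ c = e := by
  have key : ∀ {n m : ℤ} {c e : Fin 3 → k}, HW N u n c → HW N u m e → e ≠ 0 → ¬ n < m := by
    intro n m c e h h' he hlt
    apply he
    funext j
    exact (h' j).uniq ((h j).lt (by omega))
  have h1 := key h h' he
  have h2 := key h' h hc
  have h3 : n = m := by omega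
  subst h3
  exact ⟨rfl, funext fun j => (h j).uniq (h' j)⟩

lemma HL.monomial (c : k) (m : ℕ) : HL (C c * X ^ m) m c := by
  have h := HL.of_le (natDegree_C_mul_X_pow_le c m)
  rw [coeff_C_mul_X_pow, if_pos rfl] at h
  exact h

/-- the residue field at infinity -/
lemma exists_res (a₀ b₀ : k) (hirr : Irreducible (X ^ 3 + C a₀ * X + C b₀ : k[X])) [Finite k] :
    ∃ (F : Type) (_ : Field F) (_ : Algebra k F) (r : F) (_ : Finite F),
      Module.finrank k F = 3 ∧ r ≠ 0 ∧
      r ^ 3 + algebraMap k F a₀ * r + algebraMap k F b₀ = 0 ∧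
      (∀ c : Fin 3 → k, ev (algebraMap k F) r c = 0 → c = 0) ∧
      (∀ z : F, ∃ c : Fin 3 → k, ev (algebraMap k F) r c = z) ∧
      (∀ c : Fin 3 → k, Algebra.norm k (ev (algebraMap k F) r c) = nmR a₀ b₀ c) := by
  set f : k[X] := X ^ 3 + C a₀ * X + C b₀ with hf
  have : Fact (Irreducible f) := ⟨hirr⟩
  have hdeg : f.natDegree = 3 := by rw [hf]; compute_degree!
  have hmon : f.Monic := by rw [hf]; monicity!
  obtain ⟨bs, hbs⟩ := exists_basis f hmon hdeg
  have hroot : (AdjoinRoot.root f) ^ 3 + algebraMap k (AdjoinRoot f) a₀ * AdjoinRoot.root f +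
      algebraMap k (AdjoinRoot f) b₀ = 0 := by
    have h1 := AdjoinRoot.eval₂_root f
    have h2 : eval₂ (AdjoinRoot.of f) (AdjoinRoot.root f) (X ^ 3 + C a₀ * X + C b₀ : k[X]) = 0 := h1
    simp only [eval₂_add, eval₂_mul, eval₂_pow, eval₂_X, eval₂_C] at h2
    exact h2
  have hsum : ∀ c : Fin 3 → k, ev (algebraMap k (AdjoinRoot f)) (AdjoinRoot.root f) c =
      ∑ j, c j • bs j := by
    intro c
    rw [ev, Fin.sum_univ_three, hbs, hbs, hbs]
    simp [Algebra.smul_def]
  have hfr : Module.finrank k (AdjoinRoot f) = 3 := by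
    rw [Module.finrank_eq_card_basis bs, Fintype.card_fin]
  have hfd : Module.Finite k (AdjoinRoot f) := Module.finite_of_finrank_pos (by omega)
  have hfin : Finite (AdjoinRoot f) := Module.finite_of_finite k
  refine ⟨AdjoinRoot f, inferInstance, inferInstance, AdjoinRoot.root f, hfin, hfr, ?_, hroot, ?_,
    ?_, ?_⟩
  · have h1 := bs.ne_zero 1
    rw [hbs] at h1
    simpa using h1
  · intro c hc
    rw [hsum] at hc
    exact funext (Fintype.linearIndependent_iff.1 bs.linearIndependent c hc)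
  · intro z
    exact ⟨fun i => bs.repr z i, by rw [hsum]; exact bs.sum_repr z⟩
  · intro c
    exact norm_formula bs _ hbs a₀ b₀ hroot c

end aux

/-- **PP-DIAG** -/
theorem t_diag : S_DIAG := by
  intro k K L _ _ _ _ _ _ _ _ _ a b θ N h6 h ha hb hirr α hα hsq
  have hinj : Function.Injective (algebraMap k[X] K) := IsFractionRing.injective k[X] K
  have hinjL : Function.Injective (algebraMap K L) := (algebraMap K L).injective
  have h2k : (2 : k) ≠ 0 := by
    intro h0
    apply h6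
    have : (6 : k) = 2 * 3 := by norm_num
    rw [this, h0, zero_mul]
  have h2K : (2 : K) ≠ 0 := by
    intro h0
    apply h2k
    have h1 : algebraMap k[X] K (C 2) = algebraMap k[X] K 0 := by
      rw [map_zero, ← h0]
      rw [show (C (2 : k) : k[X]) = 2 by rw [map_ofNat], map_ofNat]
    have h3 := hinj h1
    rwa [C_eq_zero] at h3
  set φ : k[X] →+* L := algebraMap k[X] L with hφ
  have hφK : ∀ p, φ p = algebraMap K L (algebraMap k[X] K p) := fun p =>
    IsScalarTower.algebraMap_apply k[X] K L p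
  have hφinj : Function.Injective φ := by
    intro p q hpq
    rw [hφK, hφK] at hpq
    exact hinj (hinjL hpq)
  have hroot : θ ^ 3 + φ a * θ + φ b = 0 := h.root
  -- integral multiples
  obtain ⟨s, hs⟩ := IsLocalization.exist_integer_multiples_of_finite (nonZeroDivisors k[X])
    (fun i : Fin 3 => h.co i α)
  have hs0 : (s : k[X]) ≠ 0 := nonZeroDivisors.ne_zero s.2
  choose u' hu' using hs
  set u : Fin 3 → k[X] := fun i => s * u' i with hu
  have hucoe : ∀ i, algebraMap k[X] K (u i) = algebraMap k[X] K s ^ 2 * h.co i α := by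
    intro i
    rw [hu]
    simp only
    rw [map_mul, hu' i, Algebra.smul_def]
    ring
  have hevK : ∀ v : Fin 3 → k[X], ev φ θ v = ev (algebraMap K L) θ (fun i => algebraMap k[X] K (v i)) := by
    intro v
    simp only [ev, hφK]
  have hevu : ev φ θ u = φ s ^ 2 * α := by
    rw [hevK]
    have e1 : (fun i => algebraMap k[X] K (u i)) = fun i => algebraMap k[X] K s ^ 2 * h.co i α :=
      funext hucoe
    rw [e1]
    conv_rhs => rw [← ev_co h α]
    simp only [ev, map_mul, map_pow, hφK]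
    ring
  have hφs0 : φ s ≠ 0 := by
    intro h0
    exact hs0 (hφinj (by rw [h0, map_zero]))
  set α' : L := φ s ^ 2 * α with hα'
  have hα'0 : α' ≠ 0 := mul_ne_zero (pow_ne_zero _ hφs0) hα
  have hevinj : ∀ v : Fin 3 → k[X], ev φ θ v = 0 → v = 0 := by
    intro v hv
    rw [hevK] at hv
    funext i
    have h1 := co_ev h (fun i => algebraMap k[X] K (v i)) i
    rw [hv, map_zero] at h1
    exact hinj (by rw [Pi.zero_apply, map_zero]; exact h1.symm)
  have hu0 : u ≠ 0 := by
    intro h0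
    apply hα'0
    rw [← hevu, h0]
    simp [ev]
  -- the norm
  set D : k[X] := nmR a b u with hD
  have hnorm : algebraMap k[X] K D = Algebra.norm K α' := by
    have h1 := norm_formula h.basis θ (fun i => h.basis_apply i) (algebraMap k[X] K a)
      (algebraMap k[X] K b) (rootK h) (fun i => algebraMap k[X] K (u i))
    rw [← hevK, hevu] at h1
    rw [h1, hD]
    simp only [nmR, map_add, map_sub, map_mul, map_ofNat]
  obtain ⟨ν, hν⟩ := hsq
  have hnα : Algebra.norm K α ≠ 0 := by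
    have : FiniteDimensional K L := Module.finite_of_finrank_pos (by rw [h.rank]; omega)
    exact Algebra.norm_ne_zero_iff.2 hα
  have hν0 : ν ≠ 0 := by
    rintro rfl
    exact hnα (by rw [hν, mul_zero])
  have hDsq : algebraMap k[X] K D = (algebraMap k[X] K s ^ 3 * ν) ^ 2 := by
    rw [hnorm, hα', map_mul, map_pow, hφK, Algebra.norm_algebraMap, h.rank, hν]
    ring
  obtain ⟨g, hg⟩ : ∃ g : k[X], algebraMap k[X] K g = algebraMap k[X] K s ^ 3 * ν := by
    refine IsIntegrallyClosed.exists_algebraMap_eq_of_isIntegral_pow (n := 2) (by norm_num) ?_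
    rw [← hDsq]
    exact isIntegral_algebraMap
  have hDg : D = g ^ 2 := by
    apply hinj
    rw [hDsq, map_pow, hg]
  -- the leading vector
  obtain ⟨n, c, hnc, hc0⟩ := exists_HW N hu0
  obtain ⟨F, _, _, r, hFfin, hFr, hr0, hrroot, hFinj, hFsurj, hFnorm⟩ :=
    exists_res (a.coeff (4 * N)) (b.coeff (6 * N)) hirr
  set ρ : k →+* F := algebraMap k F with hρ
  have hρinj : Function.Injective ρ := (algebraMap k F).injective
  set α₁ : F := ev ρ r c with hα₁
  have hα₁0 : α₁ ≠ 0 := fun h0 => hc0 (hFinj c h0)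
  set δ : k := nmR (a.coeff (4 * N)) (b.coeff (6 * N)) c with hδ
  have hFfd : FiniteDimensional k F := Module.finite_of_finrank_pos (by omega)
  have hδnorm : Algebra.norm k α₁ = δ := hFnorm c
  have hδ0 : δ ≠ 0 := by
    rw [← hδnorm]
    exact Algebra.norm_ne_zero_iff.2 hα₁0
  have hDL : HL D (3 * n) δ := hnc.nm ha hb
  obtain ⟨hD0, hDdeg, hDlead⟩ := hDL.ne hδ0
  have hg0 : g ≠ 0 := by
    rintro rfl
    apply hD0
    rw [hDg]; ring
  have hδsq : IsSquare δ := ⟨g.leadingCoeff, by rw [← hDlead, hDg, leadingCoeff_pow]; ring⟩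
  have hneven : ∃ n' : ℤ, n = 2 * n' := by
    rw [hDg, natDegree_pow] at hDdeg
    push_cast at hDdeg
    exact ⟨n / 2, by omega⟩
  obtain ⟨n', hn'⟩ := hneven
  obtain ⟨γ, hγ⟩ := isSquare_of_norm h2k hFr hα₁0 (by rw [hδnorm]; exact hδsq)
  have hγ0 : γ ≠ 0 := by
    rintro rfl
    exact hα₁0 (by rw [hγ, mul_zero])
  -- the vector `x`
  obtain ⟨c', hc'⟩ := hFsurj (γ * r)
  set xv : Fin 3 → k[X] := ![C (c' 0) * X ^ (4 * N), C (c' 1) * X ^ (2 * N), C (c' 2)] with hxv
  have hxw : HW N xv (4 * N) c' := by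
    intro j
    fin_cases j
    · exact (HL.monomial (c' 0) (4 * N)).cast (by simp) rfl
    · exact (HL.monomial (c' 1) (2 * N)).cast (by push_cast; ring) rfl
    · have h1 := (HL.monomial (c' 2) 0)
      rw [pow_zero, mul_one] at h1
      exact h1.cast (by push_cast; ring) rfl
  set yv : Fin 3 → k[X] := mulR a b xv xv with hyv
  have hyw := hxw.mul ha hb hxw
  rw [← hyv] at hyw
  set zv : Fin 3 → k[X] := mulR a b (adjR a b u) yv with hzv
  have huz : mulR a b u zv = fun j => D * yv j := mul_adj a b u yv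
  have hDy : HW N (fun j => D * yv j) (3 * n + (4 * N + 4 * N))
      (fun j => δ * mulR (a.coeff (4 * N)) (b.coeff (6 * N)) c' c' j) := by
    intro j
    exact (hDL.mul (hyw j)).cast (by ring) rfl
  have hevF : ∀ v w : Fin 3 → k, ev ρ r (mulR (a.coeff (4 * N)) (b.coeff (6 * N)) v w) =
      ev ρ r v * ev ρ r w := ev_mul ρ hrroot
  have hevFs : ∀ (t : k) (v : Fin 3 → k), ev ρ r (fun j => t * v j) = ρ t * ev ρ r v := by
    intro t v
    simp only [ev, map_mul]
    ring
  have hDy0 : (fun j => δ * mulR (a.coeff (4 * N)) (b.coeff (6 * N)) c' c' j) ≠ 0 := by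
    intro h0
    have h1 := hevFs δ (mulR (a.coeff (4 * N)) (b.coeff (6 * N)) c' c')
    rw [h0, hevF, hc'] at h1
    have h3 : ev ρ r (0 : Fin 3 → k) = 0 := by simp [ev]
    rw [h3] at h1
    have h4 : ρ δ ≠ 0 := fun h5 => hδ0 (hρinj (by rw [h5, map_zero]))
    exact (mul_ne_zero h4 (mul_ne_zero (mul_ne_zero hγ0 hr0) (mul_ne_zero hγ0 hr0))) h1.symm
  have hzv0 : zv ≠ 0 := by
    intro h0
    apply hDy0
    have h1 : (fun j => D * yv j) = 0 := by
      rw [← huz, h0]
      funext j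
      fin_cases j <;> simp [mulR]
    rw [h1] at hDy
    funext j
    exact (hDy j).uniq (HL.zero _)
  obtain ⟨nz, e, hz, he0⟩ := exists_HW N hzv0
  have huzw := hnc.mul ha hb hz
  rw [huz] at huzw
  have hlead0 : mulR (a.coeff (4 * N)) (b.coeff (6 * N)) c e ≠ 0 := by
    intro h0
    have h1 := hevF c e
    rw [h0] at h1
    have h3 : ev ρ r (0 : Fin 3 → k) = 0 := by simp [ev]
    rw [h3] at h1
    exact (mul_ne_zero hα₁0 (fun h4 => he0 (hFinj e h4))) h1.symm
  obtain ⟨hwt, hlead⟩ := huzw.uniq hDy hlead0 hDy0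
  have hez : ev ρ r e = ev ρ r ![0, 0, δ] := by
    have h1 := hevF c e
    rw [hlead, hevFs, hevF, hc', ← hα₁, hγ] at h1
    have h3 : ev ρ r ![0, 0, δ] = ρ δ * r ^ 2 := by simp [ev]
    rw [h3]
    have h4 : γ * γ ≠ 0 := mul_ne_zero hγ0 hγ0
    apply mul_left_cancel₀ h4
    rw [← h1]
    ring
  have he2 : e 2 = δ := by
    have h1 : ev ρ r (fun j => e j - (![0, 0, δ] : Fin 3 → k) j) = 0 := by
      have h2 : ev ρ r (fun j => e j - (![0, 0, δ] : Fin 3 → k) j) =
          ev ρ r e - ev ρ r ![0, 0, δ] := by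
        simp only [ev, map_sub]; ring
      rw [h2, hez, sub_self]
    have h3 := congrFun (hFinj _ h1) 2
    simpa [sub_eq_zero] using h3
  have hz2 := hz 2
  rw [he2] at hz2
  obtain ⟨hz20, hz2deg, hz2lead⟩ := hz2.ne hδ0
  -- the polynomial `z₂ D`
  have hδδ : δ * δ ≠ 0 := mul_ne_zero hδ0 hδ0
  set p : k[X] := C (δ * δ)⁻¹ * (zv 2 * D) with hp
  have hpmon : p.Monic := by
    rw [Monic, hp, leadingCoeff_mul, leadingCoeff_C, leadingCoeff_mul, hz2lead, hDlead,
      inv_mul_cancel₀ hδδ]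
  have hpdeg : Even p.natDegree := by
    have h1 : p.natDegree = (zv 2).natDegree + D.natDegree := by
      rw [hp, natDegree_C_mul (inv_ne_zero hδδ), natDegree_mul hz20 hD0]
    rw [h1, Nat.even_iff]
    simp only [Fin.val_two, Nat.cast_ofNat] at hz2deg
    omega
  obtain ⟨d, g₁, hdsq, hdmon, hg₁mon, hpd⟩ := sqf_dec_monic p hpmon
  have hdeven : Even d.natDegree := by
    have h1 : p.natDegree = d.natDegree + 2 * g₁.natDegree := by
      rw [hpd, hdmon.natDegree_mul (hg₁mon.pow 2), hg₁mon.natDegree_pow]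
    rw [Nat.even_iff] at hpdeg ⊢
    omega
  have hd0 : d ≠ 0 := hdmon.ne_zero
  have hz2D : zv 2 * D = C (δ * δ) * (d * g₁ ^ 2) := by
    rw [← hpd, hp, ← mul_assoc, ← C_mul, mul_inv_cancel₀ hδδ, C_1, one_mul]
  -- the first vector
  set x : L := ev φ θ xv with hx
  set z : L := ev φ θ zv with hzdef
  have hαz : α' * z = φ D * (x * x) := by
    have h1 := ev_mul φ hroot u zv
    rw [huz, hevu] at h1
    have h3 : ev φ θ (fun j => D * yv j) = φ D * ev φ θ yv := by
      simp only [ev, map_mul]; ring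
    rw [h3, hyv, ev_mul φ hroot] at h1
    exact h1.symm
  have hcoz : h.co 2 z = algebraMap k[X] K (zv 2) := by
    rw [hzdef, hevK, co_ev]
  have hφC : ∀ t : k, t ≠ 0 → algebraMap k[X] K (C t) ≠ 0 := by
    intro t ht h0
    have h1 : (C t : k[X]) = 0 := hinj (by rw [h0, map_zero])
    exact ht (C_eq_zero.1 h1)
  have hne : ∀ q : k[X], q ≠ 0 → algebraMap k[X] K q ≠ 0 := by
    intro q hq h0
    exact hq (hinj (by rw [h0, map_zero]))
  set t₀ : K := algebraMap k[X] K D /
    (algebraMap k[X] K s * algebraMap k[X] K (C δ) * algebraMap k[X] K g₁) with ht₀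
  have hDK := hne D hD0
  have hsK := hne s hs0
  have hδK := hφC δ hδ0
  have hg₁K := hne g₁ hg₁mon.ne_zero
  have ht₀0 : t₀ ≠ 0 := div_ne_zero hDK (mul_ne_zero (mul_ne_zero hsK hδK) hg₁K)
  have hsc : ∀ (t t' : K) (v w : L), h.co 2 ((algebraMap K L t * v) * (algebraMap K L t' * w) / α) =
      t * t' * h.co 2 (v * w / α) := by
    intro t t' v w
    have e1 : (algebraMap K L t * v) * (algebraMap K L t' * w) / α =
        (t * t') • (v * w / α) := by
      rw [Algebra.smul_def, map_mul]; ring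
    rw [e1, map_smul, smul_eq_mul]
  have hxx : h.co 2 (x * x / α) = algebraMap k[X] K s ^ 2 * (algebraMap k[X] K (zv 2) /
      algebraMap k[X] K D) := by
    have hφD : φ D ≠ 0 := by rw [hφK]; exact fun h0 => hDK (hinjL (by rw [h0, map_zero]))
    have e1 : x * x / α = (algebraMap k[X] K s ^ 2 / algebraMap k[X] K D) • z := by
      rw [Algebra.smul_def, map_div₀, map_pow, ← hφK, ← hφK, div_mul_eq_mul_div,
        div_eq_div_iff hα hφD]
      have e2 : φ s ^ 2 * z * α = α' * z := by rw [hα']; ring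
      rw [e2, hαz]
      ring
    rw [e1, map_smul, smul_eq_mul, hcoz]
    ring
  set v₀ : L := algebraMap K L t₀ * x with hv₀
  have hv00 : h.co 2 (v₀ * v₀ / α) = algebraMap k[X] K d := by
    rw [hv₀, hsc, hxx]
    have h1 : algebraMap k[X] K (zv 2) * algebraMap k[X] K D =
        algebraMap k[X] K (C δ) ^ 2 * (algebraMap k[X] K d * algebraMap k[X] K g₁ ^ 2) := by
      rw [← map_mul, hz2D, C_mul]
      simp only [map_mul, map_pow]
      ring
    rw [ht₀]
    field_simp
    linear_combination h1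
  have hdK := hne d hd0
  obtain ⟨v₁, v₂, h01, h02, h12, h11, h22⟩ := orth h hα h2K (v₀ := v₀) (by rw [hv00]; exact hdK)
  -- the second vector
  obtain ⟨p₁, q₁, hq₁, hpq⟩ := IsFractionRing.div_surjective (A := k[X]) (h.co 2 (v₁ * v₁ / α))
  have hq₁0 : q₁ ≠ 0 := nonZeroDivisors.ne_zero hq₁
  have hq₁K := hne q₁ hq₁0
  have hp₁0 : p₁ ≠ 0 := by
    rintro rfl
    rw [map_zero, zero_div] at hpq
    exact h11 hpq.symm
  obtain ⟨e₁, g₂, he₁sq, hg₂0, heg⟩ := sqf_dec _ (p₁ * q₁) le_rfl (mul_ne_zero hp₁0 hq₁0)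
  have he₁0 : e₁ ≠ 0 := he₁sq.ne_zero
  have he₁K := hne e₁ he₁0
  have hg₂K := hne g₂ hg₂0
  set t₁ : K := algebraMap k[X] K q₁ / algebraMap k[X] K g₂ with ht₁
  have hv11 : h.co 2 ((algebraMap K L t₁ * v₁) * (algebraMap K L t₁ * v₁) / α) =
      algebraMap k[X] K e₁ := by
    rw [hsc, ← hpq, ht₁]
    have h1 : algebraMap k[X] K p₁ * algebraMap k[X] K q₁ =
        algebraMap k[X] K e₁ * algebraMap k[X] K g₂ ^ 2 := by
      rw [← map_mul, heg, map_mul, map_pow]
    field_simp
    linear_combination h1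
  -- the determinant
  set w₁ : L := algebraMap K L t₁ * v₁ with hw₁
  have hw01 : h.co 2 (v₀ * w₁ / α) = 0 := by
    have h1 := hsc 1 t₁ v₀ v₁
    rw [map_one, one_mul, h01, mul_zero] at h1
    exact h1
  have hw12 : ∀ t : K, h.co 2 (w₁ * (algebraMap K L t * v₂) / α) = 0 := by
    intro t
    rw [hw₁, hsc, h12, mul_zero]
  have hdet : ∀ t : K, algebraMap k[X] K d * algebraMap k[X] K e₁ *
      (t * t * h.co 2 (v₂ * v₂ / α)) * (ν * ν) =
      -((h.basis.toMatrix ![v₀, w₁, algebraMap K L t * v₂]).det ^ 2) := by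
    intro t
    rw [← hν, ← det_gram h hα, Matrix.det_fin_three]
    have h02' : h.co 2 (v₀ * (algebraMap K L t * v₂) / α) = 0 := by
      have h1 := hsc 1 t v₀ v₂
      rw [map_one, one_mul, h02, mul_zero] at h1
      exact h1
    simp only [Matrix.of_apply, Matrix.cons_val_zero, Matrix.cons_val_one, Matrix.cons_val]
    rw [hv00, hv11, hw12, h02', hw01, mul_comm w₁ v₀, hw01, mul_comm (algebraMap K L t * v₂) v₀,
      h02', mul_comm (algebraMap K L t * v₂) w₁, hw12, hsc]
    ring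
  set Δ : K := (h.basis.toMatrix ![v₀, w₁, algebraMap K L 1 * v₂]).det with hΔ
  have hdet1 := hdet 1
  rw [← hΔ, one_mul, one_mul] at hdet1
  have hΔ0 : Δ ≠ 0 := by
    intro h0
    rw [h0] at hdet1
    have h1 : algebraMap k[X] K d * algebraMap k[X] K e₁ * h.co 2 (v₂ * v₂ / α) * (ν * ν) ≠ 0 :=
      mul_ne_zero (mul_ne_zero (mul_ne_zero hdK he₁K) h22) (mul_ne_zero hν0 hν0)
    exact h1 (by rw [hdet1]; ring)
  set t₂ : K := algebraMap k[X] K d * algebraMap k[X] K e₁ * ν / Δ with ht₂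
  have ht₂0 : t₂ ≠ 0 := div_ne_zero (mul_ne_zero (mul_ne_zero hdK he₁K) hν0) hΔ0
  have hv22 : t₂ * t₂ * h.co 2 (v₂ * v₂ / α) = -(algebraMap k[X] K (d * e₁)) := by
    obtain ⟨β, hβ⟩ : ∃ β, β = h.co 2 (v₂ * v₂ / α) := ⟨_, rfl⟩
    rw [← hβ] at hdet1 ⊢
    rw [map_mul, ht₂]
    have h1 : algebraMap k[X] K d * algebraMap k[X] K e₁ ≠ 0 := mul_ne_zero hdK he₁K
    field_simp
    linear_combination hdet1
  refine ⟨d, e₁, hdmon, hdsq, hdeven, he₁0, he₁sq, ![v₀, w₁, algebraMap K L t₂ * v₂], ?_, ?_, ?_,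
    ?_, ?_⟩
  · have hdt := hdet t₂
    have hne2 : (h.basis.toMatrix ![v₀, w₁, algebraMap K L t₂ * v₂]).det ≠ 0 := by
      intro h0
      rw [h0, hv22, map_mul] at hdt
      have h1 : algebraMap k[X] K d * algebraMap k[X] K e₁ *
          -(algebraMap k[X] K d * algebraMap k[X] K e₁) * (ν * ν) ≠ 0 :=
        mul_ne_zero (mul_ne_zero (mul_ne_zero hdK he₁K) (neg_ne_zero.2 (mul_ne_zero hdK he₁K)))
          (mul_ne_zero hν0 hν0)
      exact h1 (by rw [hdt]; ring)
    exact ((h.basis.is_basis_iff_det).2 (isUnit_iff_ne_zero.2 hne2)).1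
  · have h02' : h.co 2 (v₀ * (algebraMap K L t₂ * v₂) / α) = 0 := by
      have h1 := hsc 1 t₂ v₀ v₂
      rw [map_one, one_mul, h02, mul_zero] at h1
      exact h1
    intro i j hij
    fin_cases i <;> fin_cases j
    · exact absurd rfl hij
    · exact hw01
    · exact h02'
    · show h.co 2 (w₁ * v₀ / α) = 0
      rw [mul_comm]; exact hw01
    · exact absurd rfl hij
    · exact hw12 t₂
    · show h.co 2 (algebraMap K L t₂ * v₂ * v₀ / α) = 0
      rw [mul_comm]; exact h02'
    · show h.co 2 (algebraMap K L t₂ * v₂ * w₁ / α) = 0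
      rw [mul_comm]; exact hw12 t₂
    · exact absurd rfl hij
  · show h.co 2 (v₀ ^ 2 / α) = _
    rw [pow_two]; exact hv00
  · show h.co 2 (w₁ ^ 2 / α) = _
    rw [pow_two]; exact hv11
  · show h.co 2 ((algebraMap K L t₂ * v₂) ^ 2 / α) = _
    rw [pow_two, hsc]; exact hv22

end Pool.Agent.N26.PP
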