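import Pool.Agent.N26.PP.Lead

/-! Lemmas for PP-DIAG (helper26, project PP of helper874). -/

set_option autoImplicit false

open Polynomial Matrix Pool.Agent.N874.PP

namespace Pool.Agent.N26.PP

/-- square classes in cubic extensions of finite fields -/
lemma isSquare_of_norm {k F : Type} [Field k] [Field F] [Finite F] [Algebra k F]
    (h2 : (2 : k) ≠ 0) (hr : Module.finrank k F = 3) {z : F} (hz : z ≠ 0)
    (h : IsSquare (Algebra.norm k z)) : IsSquare z := by
  have hk : Finite k := Finite.of_injective _ (algebraMap k F).injective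
  have := Fintype.ofFinite k
  have := Fintype.ofFinite F
  have hfd : FiniteDimensional k F := Module.finite_of_finrank_pos (by omega)
  have hcard : Nat.card F = Nat.card k ^ 3 := by
    rw [Module.natCard_eq_pow_finrank (K := k), hr]
  have hF2 : (2 : F) ≠ 0 := by
    intro h0
    apply h2
    apply (algebraMap k F).injective
    rw [map_zero, map_ofNat]
    exact h0
  have hchF : ringChar F ≠ 2 := fun h0 => hF2 (by
    have := ringChar.Nat.cast_ringChar (R := F)
    rw [h0] at this
    exact_mod_cast this)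
  have hchk : ringChar k ≠ 2 := fun h0 => h2 (by
    have := ringChar.Nat.cast_ringChar (R := k)
    rw [h0] at this
    exact_mod_cast this)
  have hodd := FiniteField.odd_card_of_char_ne_two hchk
  have hq1 : 1 < Fintype.card k := Fintype.one_lt_card
  obtain ⟨m, hm⟩ : ∃ m, Fintype.card k = 2 * m + 1 := ⟨Fintype.card k / 2, by omega⟩
  have hm0 : 0 < m := by omega
  rw [FiniteField.isSquare_iff hchF hz]
  obtain ⟨s, hs⟩ := h
  have hs0 : s ≠ 0 := by
    rintro rfl
    rw [mul_zero] at hs
    exact hz ((Algebra.norm_eq_zero_iff).1 hs)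
  have h1 := FiniteField.algebraMap_norm_eq_pow (K := k) (K' := F) (x := z)
  rw [hcard, Nat.card_eq_fintype_card, hm] at h1
  have e1 : (2 * m + 1) ^ 3 - 1 = (2 * m) * ((2 * m + 1) ^ 2 + (2 * m + 1) + 1) := by
    have : (2 * m + 1) ^ 3 = (2 * m) * ((2 * m + 1) ^ 2 + (2 * m + 1) + 1) + 1 := by ring
    omega
  rw [e1, Nat.add_sub_cancel, Nat.mul_div_cancel_left _ (by omega)] at h1
  have e2 : Fintype.card F / 2 = ((2 * m + 1) ^ 2 + (2 * m + 1) + 1) * m := by
    rw [← Nat.card_eq_fintype_card, hcard, Nat.card_eq_fintype_card, hm]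
    have : (2 * m + 1) ^ 3 = 2 * (((2 * m + 1) ^ 2 + (2 * m + 1) + 1) * m) + 1 := by ring
    omega
  rw [e2, pow_mul, ← h1, hs, map_mul, ← pow_two, ← pow_mul, ← map_pow]
  have e3 := FiniteField.pow_card_sub_one_eq_one s hs0
  rw [hm, Nat.add_sub_cancel] at e3
  rw [e3, map_one]

lemma sqf_dec {k : Type} [Field k] : ∀ (n : ℕ) (p : k[X]), p.natDegree ≤ n → p ≠ 0 →
    ∃ e g : k[X], Squarefree e ∧ g ≠ 0 ∧ p = e * g ^ 2 := by
  intro n
  induction n with
  | zero =>
    intro p hp hp0
    refine ⟨p, 1, ?_, one_ne_zero, by ring⟩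
    have h1 := eq_C_of_natDegree_eq_zero (by omega : p.natDegree = 0)
    have h2 : p.coeff 0 ≠ 0 := by
      intro h
      rw [h, C_0] at h1
      exact hp0 h1
    rw [h1]
    exact ((isUnit_iff_ne_zero.2 h2).map C).squarefree
  | succ n ih =>
    intro p hp hp0
    by_cases hsq : Squarefree p
    · exact ⟨p, 1, hsq, one_ne_zero, by ring⟩
    · unfold Squarefree at hsq
      push Not at hsq
      obtain ⟨x, ⟨q, hq⟩, hx⟩ := hsq
      have hx0 : x ≠ 0 := by
        rintro rfl
        rw [zero_mul, zero_mul] at hq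
        exact hp0 hq
      have hq0 : q ≠ 0 := by
        rintro rfl
        rw [mul_zero] at hq
        exact hp0 hq
      have hxd : 0 < x.natDegree := by
        by_contra hcon
        apply hx
        have h1 := eq_C_of_natDegree_eq_zero (by omega : x.natDegree = 0)
        have h2 : x.coeff 0 ≠ 0 := by
          intro h
          rw [h, C_0] at h1
          exact hx0 h1
        rw [h1]
        exact (isUnit_iff_ne_zero.2 h2).map C
      have hd : p.natDegree = x.natDegree + x.natDegree + q.natDegree := by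
        rw [hq, natDegree_mul (mul_ne_zero hx0 hx0) hq0, natDegree_mul hx0 hx0]
      obtain ⟨e, g, he, hg, heg⟩ := ih q (by omega) hq0
      exact ⟨e, x * g, he, mul_ne_zero hx0 hg, by rw [hq, heg]; ring⟩

lemma sqf_dec_monic {k : Type} [Field k] (p : k[X]) (hp : p.Monic) :
    ∃ e g : k[X], Squarefree e ∧ e.Monic ∧ g.Monic ∧ p = e * g ^ 2 := by
  obtain ⟨e, g, he, hg, heg⟩ := sqf_dec _ p le_rfl hp.ne_zero
  have he0 : e ≠ 0 := he.ne_zero
  have hl : e.leadingCoeff * g.leadingCoeff ^ 2 = 1 := by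
    have := congrArg leadingCoeff heg
    rw [hp.leadingCoeff, leadingCoeff_mul, leadingCoeff_pow] at this
    exact this.symm
  have hel : e.leadingCoeff ≠ 0 := leadingCoeff_ne_zero.2 he0
  have hgl : g.leadingCoeff ≠ 0 := leadingCoeff_ne_zero.2 hg
  refine ⟨C (e.leadingCoeff)⁻¹ * e, C (g.leadingCoeff)⁻¹ * g, ?_, ?_, ?_, ?_⟩
  · have hu : IsUnit (C (e.leadingCoeff)⁻¹ : k[X]) :=
      (isUnit_iff_ne_zero.2 (inv_ne_zero hel)).map C
    intro x hx
    exact he x ((hu.dvd_mul_left).1 hx)
  · rw [Monic, leadingCoeff_mul, leadingCoeff_C, inv_mul_cancel₀ hel]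
  · rw [Monic, leadingCoeff_mul, leadingCoeff_C, inv_mul_cancel₀ hgl]
  · have e1 : C (e.leadingCoeff)⁻¹ * e * (C (g.leadingCoeff)⁻¹ * g) ^ 2 =
        C (e.leadingCoeff⁻¹ * (g.leadingCoeff⁻¹) ^ 2) * (e * g ^ 2) := by
      rw [C_mul, C_pow]; ring
    have e2 : e.leadingCoeff⁻¹ * (g.leadingCoeff⁻¹) ^ 2 = 1 := by
      rw [inv_pow, ← mul_inv, hl, inv_one]
    rw [e1, e2, C_1, one_mul]
    exact heg

section cub

set_option linter.unusedSectionVars false

variable {k K L : Type} [Field k] [Field K] [Algebra k[X] K] [Field L] [Algebra K L]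
  [Algebra k[X] L] [IsScalarTower k[X] K L] {a b : k[X]} {θ : L}

lemma rootK (h : IsCub K a b θ) :
    θ ^ 3 + algebraMap K L (algebraMap k[X] K a) * θ + algebraMap K L (algebraMap k[X] K b) = 0 := by
  rw [← IsScalarTower.algebraMap_apply, ← IsScalarTower.algebraMap_apply]
  exact h.root

lemma ev_co (h : IsCub K a b θ) (x : L) : ev (algebraMap K L) θ (fun i => h.co i x) = x := by
  have h1 := h.basis.sum_repr x
  rw [Fin.sum_univ_three, h.basis_apply, h.basis_apply, h.basis_apply] at h1
  simp only [Pool.Agent.N874.PP.vec, Algebra.smul_def, Matrix.cons_val_zero, Matrix.cons_val_one, Matrix.cons_val,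
    mul_one] at h1
  exact h1

lemma co_ev (h : IsCub K a b θ) (c : Fin 3 → K) (i : Fin 3) :
    h.co i (ev (algebraMap K L) θ c) = c i := by
  have h1 : ev (algebraMap K L) θ c = ∑ j, c j • h.basis j := by
    rw [ev, Fin.sum_univ_three, h.basis_apply, h.basis_apply, h.basis_apply]
    simp [Pool.Agent.N874.PP.vec, Algebra.smul_def]
  rw [h1, IsCub.co, Module.Basis.coord_apply, map_sum, Finsupp.finsetSum_apply]
  simp only [map_smul, Module.Basis.repr_self, Finsupp.smul_apply, smul_eq_mul]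
  rw [Finset.sum_eq_single i]
  · simp
  · intro j _ hj
    rw [Finsupp.single_eq_of_ne (by simpa using hj.symm)]
    simp
  · intro h
    exact absurd (Finset.mem_univ _) h

lemma co_mul (h : IsCub K a b θ) (x y : L) (i : Fin 3) :
    h.co i (x * y) = mulR (algebraMap k[X] K a) (algebraMap k[X] K b) (fun j => h.co j x)
      (fun j => h.co j y) i := by
  conv_lhs => rw [← ev_co h x, ← ev_co h y, ← ev_mul (algebraMap K L) (rootK h)]
  rw [co_ev]

/-- the Gram matrix of `1, θ, θ ^ 2` -/
def G1 (A : K) : Matrix (Fin 3) (Fin 3) K := !![0, 0, 1; 0, 1, 0; 1, 0, -A]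

lemma det_G1 (A : K) : (G1 A).det = -1 := by
  rw [Matrix.det_fin_three]
  simp [G1]

lemma gram (h : IsCub K a b θ) (w v : Fin 3 → L) :
    (Matrix.of fun i j => h.co 2 (w i * v j)) =
      (h.basis.toMatrix w)ᵀ * G1 (algebraMap k[X] K a) * h.basis.toMatrix v := by
  ext i j
  rw [Matrix.of_apply, co_mul]
  simp only [mulR, IsCub.co, Module.Basis.coord_apply, Matrix.mul_apply, Fin.sum_univ_three,
    Matrix.transpose_apply, Module.Basis.toMatrix_apply, G1, Matrix.of_apply, Matrix.cons_val',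
    Matrix.cons_val_zero, Matrix.cons_val_one, Matrix.cons_val, Matrix.cons_val_fin_one]
  ring

lemma det_gram (h : IsCub K a b θ) {α : L} (hα : α ≠ 0) (v : Fin 3 → L) :
    (Matrix.of fun i j => h.co 2 (v i * v j / α)).det * Algebra.norm K α =
      -((h.basis.toMatrix v).det ^ 2) := by
  have e1 : (Matrix.of fun i j => h.co 2 (v i * v j / α)) =
      Matrix.of fun i j => h.co 2 ((α⁻¹ • v) i * v j) := by
    ext i j
    simp only [Matrix.of_apply, Pi.smul_apply, smul_eq_mul]
    congr 1
    rw [div_eq_inv_mul, mul_assoc]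
  rw [e1, gram h, Module.Basis.toMatrix_smul, Matrix.det_mul, Matrix.det_mul, Matrix.det_transpose,
    Matrix.det_mul, det_G1, ← Algebra.norm_eq_matrix_det]
  have e2 : Algebra.norm K α⁻¹ * Algebra.norm K α = 1 := by
    rw [← map_mul, inv_mul_cancel₀ hα, map_one]
  linear_combination (-(h.basis.toMatrix v).det ^ 2) * e2

/-- an orthogonal basis with given first vector -/
lemma orth (h : IsCub K a b θ) {α : L} (hα : α ≠ 0) (h2 : (2 : K) ≠ 0) {v₀ : L}
    (hv₀ : h.co 2 (v₀ * v₀ / α) ≠ 0) :
    ∃ v₁ v₂ : L, h.co 2 (v₀ * v₁ / α) = 0 ∧ h.co 2 (v₀ * v₂ / α) = 0 ∧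
      h.co 2 (v₁ * v₂ / α) = 0 ∧ h.co 2 (v₁ * v₁ / α) ≠ 0 ∧ h.co 2 (v₂ * v₂ / α) ≠ 0 := by
  have hfd : FiniteDimensional K L := Module.finite_of_finrank_pos (by rw [h.rank]; omega)
  -- the linear forms
  set φ : L → (L →ₗ[K] K) := fun x =>
    (h.co 2).comp (LinearMap.mulLeft K (x / α)) with hφ
  have hφ' : ∀ x y, φ x y = h.co 2 (x * y / α) := by
    intro x y
    simp only [hφ, LinearMap.comp_apply, LinearMap.mulLeft_apply]
    congr 1
    ring
  have hnd : ∀ x : L, x ≠ 0 → ∃ y, h.co 2 (x * y / α) ≠ 0 := by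
    intro x hx
    refine ⟨α * θ ^ 2 / x, ?_⟩
    have e1 : x * (α * θ ^ 2 / x) / α = ev (algebraMap K L) θ ![0, 0, 1] := by
      simp [ev]
      field_simp
    rw [e1, co_ev]
    simp
  have hadd : ∀ x y z, h.co 2 (x * (y + z) / α) = h.co 2 (x * y / α) + h.co 2 (x * z / α) := by
    intro x y z
    rw [← map_add]; congr 1; ring
  -- a nonisotropic vector in the orthogonal complement
  obtain ⟨v₁, hv01, hv11⟩ : ∃ v₁, h.co 2 (v₀ * v₁ / α) = 0 ∧ h.co 2 (v₁ * v₁ / α) ≠ 0 := by
    by_contra hcon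
    push Not at hcon
    have hker : LinearMap.ker (φ v₀) ≠ ⊥ :=
      LinearMap.ker_ne_bot_of_finrank_lt (by rw [h.rank, Module.finrank_self]; omega)
    obtain ⟨w, hw, hw0⟩ := (Submodule.ne_bot_iff _).1 hker
    rw [LinearMap.mem_ker, hφ'] at hw
    obtain ⟨y, hy⟩ := hnd w hw0
    apply hy
    -- decompose `y`
    set c : K := h.co 2 (v₀ * y / α) / h.co 2 (v₀ * v₀ / α) with hc
    set y' : L := y - c • v₀ with hy'
    have hsm : ∀ x z : L, h.co 2 (x * (c • z) / α) = c * h.co 2 (x * z / α) := by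
      intro x z
      have e1 : x * (c • z) / α = c • (x * z / α) := by
        rw [Algebra.smul_def, Algebra.smul_def]; ring
      rw [e1, map_smul, smul_eq_mul]
    have hyd : y = y' + c • v₀ := by rw [hy']; ring
    have h3 : h.co 2 (v₀ * y' / α) = 0 := by
      have h4 := hadd v₀ y' (c • v₀)
      rw [← hyd, hsm] at h4
      have h5 : c * h.co 2 (v₀ * v₀ / α) = h.co 2 (v₀ * y / α) := by
        rw [hc, div_mul_cancel₀ _ hv₀]
      linear_combination -h4 - h5
    have h6 : h.co 2 (w * y' / α) = 0 := by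
      have g1 := hcon w hw
      have g2 := hcon y' h3
      have g3 := hcon (w + y') (by rw [hadd, hw, h3, add_zero])
      have g4 : h.co 2 ((w + y') * (w + y') / α) = h.co 2 (w * w / α) + 2 * h.co 2 (w * y' / α) +
          h.co 2 (y' * y' / α) := by
        have e1 : (w + y') * (w + y') / α = w * w / α + (w * y' / α + w * y' / α) + y' * y' / α := by
          ring
        rw [e1, map_add, map_add, map_add]
        ring
      rw [g4, g1, g2, zero_add, add_zero] at g3
      exact (mul_eq_zero.1 g3).resolve_left h2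
    rw [hyd, hadd, h6, hsm, zero_add, mul_comm w v₀, hw, mul_zero]
  -- a vector orthogonal to both
  have hker : LinearMap.ker ((φ v₀).prod (φ v₁)) ≠ ⊥ :=
    LinearMap.ker_ne_bot_of_finrank_lt (by
      rw [h.rank, Module.finrank_prod, Module.finrank_self]; omega)
  obtain ⟨w, hw, hw0⟩ := (Submodule.ne_bot_iff _).1 hker
  rw [LinearMap.mem_ker, LinearMap.prod_apply] at hw
  have hw1 : h.co 2 (v₀ * w / α) = 0 := by
    rw [← hφ']; exact congrArg Prod.fst hw
  have hw2 : h.co 2 (v₁ * w / α) = 0 := by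
    rw [← hφ']; exact congrArg Prod.snd hw
  refine ⟨v₁, w, hv01, hw1, hw2, hv11, fun hww => ?_⟩
  have hsm : ∀ (c : K) (x z : L), h.co 2 (x * (c • z) / α) = c * h.co 2 (x * z / α) := by
    intro c x z
    have e1 : x * (c • z) / α = c • (x * z / α) := by
      rw [Algebra.smul_def, Algebra.smul_def]; ring
    rw [e1, map_smul, smul_eq_mul]
  -- the three vectors are independent
  have hli : LinearIndependent K ![v₀, v₁, w] := by
    rw [Fintype.linearIndependent_iff]
    intro g hg
    rw [Fin.sum_univ_three] at hg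
    simp only [Matrix.cons_val_zero, Matrix.cons_val_one, Matrix.cons_val] at hg
    have h0 : g 0 = 0 := by
      have h1 : h.co 2 (v₀ * (g 0 • v₀ + g 1 • v₁ + g 2 • w) / α) = 0 := by
        rw [hg, mul_zero, zero_div, map_zero]
      rw [hadd, hadd, hsm, hsm, hsm, hv01, hw1, mul_zero, mul_zero, add_zero, add_zero] at h1
      exact (mul_eq_zero.1 h1).resolve_right hv₀
    have h1 : g 1 = 0 := by
      have h1 : h.co 2 (v₁ * (g 0 • v₀ + g 1 • v₁ + g 2 • w) / α) = 0 := by
        rw [hg, mul_zero, zero_div, map_zero]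
      rw [hadd, hadd, hsm, hsm, hsm, mul_comm v₁ v₀, hv01, hw2, mul_zero, mul_zero, zero_add,
        add_zero] at h1
      exact (mul_eq_zero.1 h1).resolve_right hv11
    have h2' : g 2 = 0 := by
      rw [h0, h1, zero_smul, zero_smul, zero_add, zero_add] at hg
      exact (smul_eq_zero.1 hg).resolve_right hw0
    intro i
    fin_cases i
    · exact h0
    · exact h1
    · exact h2'
  have hspan := hli.span_eq_top_of_card_eq_finrank' (by rw [h.rank, Fintype.card_fin])
  obtain ⟨y, hy⟩ := hnd w hw0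
  apply hy
  have hmem : y ∈ Submodule.span K (Set.range ![v₀, v₁, w]) := by rw [hspan]; trivial
  rw [Submodule.mem_span_range_iff_exists_fun] at hmem
  obtain ⟨g, hg⟩ := hmem
  rw [Fin.sum_univ_three] at hg
  simp only [Matrix.cons_val_zero, Matrix.cons_val_one, Matrix.cons_val] at hg
  rw [← hg, hadd, hadd, hsm, hsm, hsm, mul_comm w v₀, mul_comm w v₁, hw1, hw2, hww]
  simp

end cub

end Pool.Agent.N26.PP
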