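import Pool.Agent.N874.PP.Lat

/-! Leading vectors of elements of a cubic field with inert place at infinity (helper26, project PP
of helper874). -/

set_option autoImplicit false

open Polynomial Matrix

namespace Pool.Agent.N26.PP

section lead

variable {k : Type} [Field k]

/-- coefficient with integral index -/
noncomputable def cz (p : k[X]) (i : ℤ) : k := if 0 ≤ i then p.coeff i.toNat else 0

/-- degree at most `i` with coefficient `c` of `X ^ i` -/
def HL (p : k[X]) (i : ℤ) (c : k) : Prop := (p = 0 ∨ (p.natDegree : ℤ) ≤ i) ∧ cz p i = c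

lemma HL.cast {p : k[X]} {i j : ℤ} {c e : k} (h : HL p i c) (hi : j = i) (hc : e = c) :
    HL p j e := by rw [hi, hc]; exact h

lemma cz_add (p q : k[X]) (i : ℤ) : cz (p + q) i = cz p i + cz q i := by
  unfold cz; split_ifs <;> simp

lemma cz_neg (p : k[X]) (i : ℤ) : cz (-p) i = -cz p i := by
  unfold cz; split_ifs <;> simp

lemma HL.zero (i : ℤ) : HL (0 : k[X]) i 0 := by
  refine ⟨Or.inl rfl, ?_⟩
  unfold cz; split_ifs <;> simp

lemma HL.add {p q : k[X]} {i : ℤ} {c e : k} (h : HL p i c) (h' : HL q i e) :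
    HL (p + q) i (c + e) := by
  refine ⟨?_, by rw [cz_add, h.2, h'.2]⟩
  rcases h.1 with rfl | h1
  · rw [zero_add]; exact h'.1
  rcases h'.1 with rfl | h2
  · rw [add_zero]; exact h.1
  right
  have := natDegree_add_le p q
  omega

lemma HL.neg {p : k[X]} {i : ℤ} {c : k} (h : HL p i c) : HL (-p) i (-c) := by
  refine ⟨?_, by rw [cz_neg, h.2]⟩
  rw [natDegree_neg, neg_eq_zero]
  exact h.1

lemma HL.sub {p q : k[X]} {i : ℤ} {c e : k} (h : HL p i c) (h' : HL q i e) :
    HL (p - q) i (c - e) := by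
  rw [sub_eq_add_neg, sub_eq_add_neg]
  exact h.add h'.neg

lemma HL.mul {p q : k[X]} {i j : ℤ} {c e : k} (h : HL p i c) (h' : HL q j e) :
    HL (p * q) (i + j) (c * e) := by
  rcases h.1 with rfl | h1
  · have : c = 0 := by rw [← h.2]; exact (HL.zero i).2
    rw [zero_mul, this, zero_mul]
    exact HL.zero _
  rcases h'.1 with rfl | h2
  · have : e = 0 := by rw [← h'.2]; exact (HL.zero j).2
    rw [mul_zero, this, mul_zero]
    exact HL.zero _
  obtain ⟨m, rfl⟩ : ∃ m : ℕ, i = m := ⟨i.toNat, by omega⟩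
  obtain ⟨n, rfl⟩ : ∃ n : ℕ, j = n := ⟨j.toNat, by omega⟩
  have h1' : p.natDegree ≤ m := by omega
  have h2' : q.natDegree ≤ n := by omega
  refine ⟨Or.inr ?_, ?_⟩
  · have := natDegree_mul_le (p := p) (q := q)
    omega
  · have e1 : c = p.coeff m := by
      rw [← h.2]; unfold cz; simp
    have e2 : e = q.coeff n := by
      rw [← h'.2]; unfold cz; simp
    unfold cz
    rw [if_pos (by omega), e1, e2]
    have e3 : ((m : ℤ) + n).toNat = m + n := by omega
    rw [e3]
    exact coeff_mul_add_eq_of_natDegree_le h1' h2'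

lemma HL.ne {p : k[X]} {i : ℤ} {c : k} (h : HL p i c) (hc : c ≠ 0) :
    p ≠ 0 ∧ (p.natDegree : ℤ) = i ∧ p.leadingCoeff = c := by
  have hp : p ≠ 0 := by
    rintro rfl
    exact hc (by rw [← h.2]; exact (HL.zero i).2)
  have h1 := h.1.resolve_left hp
  have h2 := h.2
  unfold cz at h2
  rw [if_pos (by omega)] at h2
  have h3 : i.toNat ≤ p.natDegree := le_natDegree_of_ne_zero (by rw [h2]; exact hc)
  have h4 : i.toNat = p.natDegree := by omega
  refine ⟨hp, by omega, ?_⟩
  rw [← h2, h4]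
  rfl

lemma HL.self (p : k[X]) : HL p p.natDegree p.leadingCoeff := by
  refine ⟨Or.inr le_rfl, ?_⟩
  unfold cz
  simp

lemma HL.of_le {p : k[X]} {i : ℕ} (h : p.natDegree ≤ i) : HL p i (p.coeff i) := by
  refine ⟨Or.inr (by exact_mod_cast h), ?_⟩
  unfold cz
  simp

lemma HL.uniq {p : k[X]} {i : ℤ} {c e : k} (h : HL p i c) (h' : HL p i e) : c = e := by
  rw [← h.2, ← h'.2]

/-- a vector of weight at most `n` with leading vector `c` -/
def HW (N : ℕ) (u : Fin 3 → k[X]) (n : ℤ) (c : Fin 3 → k) : Prop :=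
  ∀ j : Fin 3, HL (u j) (n - 2 * N * (j : ℕ)) (c j)

lemma exists_HW (N : ℕ) {u : Fin 3 → k[X]} (hu : u ≠ 0) :
    ∃ (n : ℤ) (c : Fin 3 → k), HW N u n c ∧ c ≠ 0 := by
  classical
  set s : Finset (Fin 3) := Finset.univ.filter fun j => u j ≠ 0 with hs
  have hne : s.Nonempty := by
    obtain ⟨j, hj⟩ := Function.ne_iff.1 hu
    exact ⟨j, by rw [hs, Finset.mem_filter]; exact ⟨Finset.mem_univ _, hj⟩⟩
  obtain ⟨j, hj, hmax⟩ := s.exists_max_image (fun j => (u j).natDegree + 2 * N * (j : ℕ)) hne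
  rw [hs, Finset.mem_filter] at hj
  refine ⟨((u j).natDegree + 2 * N * (j : ℕ) : ℕ), fun i => cz (u i) (((u j).natDegree + 2 * N * (j : ℕ) : ℕ) -
    2 * N * (i : ℕ)), fun i => ⟨?_, rfl⟩, ?_⟩
  · by_cases hi : u i = 0
    · exact Or.inl hi
    · right
      have := hmax i (by rw [hs, Finset.mem_filter]; exact ⟨Finset.mem_univ _, hi⟩)
      push_cast
      have h2 : (((u i).natDegree + 2 * N * (i : ℕ) : ℕ) : ℤ) ≤
        (((u j).natDegree + 2 * N * (j : ℕ) : ℕ) : ℤ) := by exact_mod_cast this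
      push_cast at h2
      linarith
  · intro h
    have h1 := congrFun h j
    simp only [Pi.zero_apply] at h1
    have e1 : (((u j).natDegree + 2 * N * (j : ℕ) : ℕ) : ℤ) - 2 * N * (j : ℕ) = (u j).natDegree := by
      push_cast; ring
    rw [e1] at h1
    have h2 := (HL.self (u j)).2
    rw [h1] at h2
    exact hj.2 (leadingCoeff_eq_zero.1 h2.symm)

end lead

section forms

variable {R : Type} [CommRing R]

/-- multiplication of coordinate vectors -/
def mulR (A B : R) (u v : Fin 3 → R) : Fin 3 → R :=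
  ![u 0 * v 0 - B * (u 1 * v 2 + u 2 * v 1),
    u 0 * v 1 + u 1 * v 0 - A * (u 1 * v 2 + u 2 * v 1) - B * (u 2 * v 2),
    u 0 * v 2 + u 1 * v 1 + u 2 * v 0 - A * (u 2 * v 2)]

/-- the norm form -/
def nmR (A B : R) (u : Fin 3 → R) : R :=
  u 0 * (u 0 * u 0) - 2 * (A * (u 0 * (u 0 * u 2))) + A * (A * (u 0 * (u 2 * u 2))) +
    A * (u 0 * (u 1 * u 1)) + 3 * (B * (u 0 * (u 1 * u 2))) - A * (B * (u 1 * (u 2 * u 2))) -
    B * (u 1 * (u 1 * u 1)) + B * (B * (u 2 * (u 2 * u 2)))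

/-- the adjugate -/
def adjR (A B : R) (u : Fin 3 → R) : Fin 3 → R :=
  ![(u 0 - A * u 2) ^ 2 + u 1 * (A * u 1 + B * u 2), -(u 0 * u 1 + B * u 2 ^ 2),
    u 1 ^ 2 - u 0 * u 2 + A * u 2 ^ 2]

lemma mul_adj (A B : R) (u w : Fin 3 → R) :
    mulR A B u (mulR A B (adjR A B u) w) = fun j => nmR A B u * w j := by
  funext j
  fin_cases j
  · simp [mulR, adjR, nmR]; ring
  · simp [mulR, adjR, nmR]; ring
  · simp [mulR, adjR, nmR]; ring

/-- evaluation -/
def ev {S : Type} [CommRing S] (φ : R →+* S) (θ : S) (u : Fin 3 → R) : S :=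
  φ (u 0) + φ (u 1) * θ + φ (u 2) * θ ^ 2

lemma ev_mul {S : Type} [CommRing S] (φ : R →+* S) {A B : R} {θ : S}
    (h : θ ^ 3 + φ A * θ + φ B = 0) (u v : Fin 3 → R) :
    ev φ θ (mulR A B u v) = ev φ θ u * ev φ θ v := by
  simp only [ev, mulR, Matrix.cons_val_zero, Matrix.cons_val_one, Matrix.cons_val, map_add,
    map_sub, map_mul]
  linear_combination (-((φ (u 1) * φ (v 2) + φ (u 2) * φ (v 1)) + φ (u 2) * φ (v 2) * θ)) * h

end forms

section leadmul

variable {k : Type} [Field k]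

lemma HW.mul {N : ℕ} {a b : k[X]} (ha : a.natDegree ≤ 4 * N) (hb : b.natDegree ≤ 6 * N)
    {u v : Fin 3 → k[X]} {n m : ℤ} {c e : Fin 3 → k} (hu : HW N u n c) (hv : HW N v m e) :
    HW N (mulR a b u v) (n + m) (mulR (a.coeff (4 * N)) (b.coeff (6 * N)) c e) := by
  have hA := HL.of_le ha
  have hB := HL.of_le hb
  have u0 := hu 0
  have u1 := hu 1
  have u2 := hu 2
  have v0 := hv 0
  have v1 := hv 1
  have v2 := hv 2
  simp only [Fin.val_zero, Fin.val_one, Fin.val_two, Nat.cast_zero, Nat.cast_one, Nat.cast_ofNat]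
    at u0 u1 u2 v0 v1 v2
  intro j
  fin_cases j
  · refine HL.cast ((u0.mul v0).sub ((hB.mul (((u1.mul v2).add ((u2.mul v1).cast (i := _)
      (j := _) (by ring) rfl)))).cast ?_ rfl)) ?_ rfl
    · push_cast; ring
    · simp
  · refine HL.cast (((u0.mul v1).add ((u1.mul v0).cast ?_ rfl)).sub
      ((hA.mul ((u1.mul v2).add ((u2.mul v1).cast (by ring) rfl))).cast ?_ rfl) |>.sub
      ((hB.mul (u2.mul v2)).cast ?_ rfl)) ?_ rfl
    · ring
    · push_cast; ring
    · push_cast; ring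
    · simp; ring
  · refine HL.cast ((((u0.mul v2).add ((u1.mul v1).cast ?_ rfl)).add
      ((u2.mul v0).cast ?_ rfl)).sub ((hA.mul (u2.mul v2)).cast ?_ rfl)) ?_ rfl
    · ring
    · ring
    · push_cast; ring
    · simp; ring

lemma HL.nat_mul {p : k[X]} {i : ℤ} {c : k} (r : ℕ) (h : HL p i c) :
    HL ((r : k[X]) * p) i ((r : k) * c) := by
  have h1 : HL ((r : k[X])) (0 : ℤ) (r : k) := by
    have := HL.of_le (p := (r : k[X])) (i := 0) (by simp)
    simpa using this
  exact (h1.mul h).cast (by ring) rfl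

lemma HW.nm {N : ℕ} {a b : k[X]} (ha : a.natDegree ≤ 4 * N) (hb : b.natDegree ≤ 6 * N)
    {u : Fin 3 → k[X]} {n : ℤ} {c : Fin 3 → k} (hu : HW N u n c) :
    HL (nmR a b u) (3 * n) (nmR (a.coeff (4 * N)) (b.coeff (6 * N)) c) := by
  have hA := HL.of_le ha
  have hB := HL.of_le hb
  have u0 := hu 0
  have u1 := hu 1
  have u2 := hu 2
  simp only [Fin.val_zero, Fin.val_one, Fin.val_two, Nat.cast_zero, Nat.cast_one, Nat.cast_ofNat]
    at u0 u1 u2
  unfold nmR
  refine ((((((((u0.mul (u0.mul u0)).cast (j := 3 * n) ?_ rfl).sub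
    ((HL.nat_mul 2 (hA.mul (u0.mul (u0.mul u2)))).cast ?_ ?_)).add
    ((hA.mul (hA.mul (u0.mul (u2.mul u2)))).cast ?_ rfl)).add
    ((hA.mul (u0.mul (u1.mul u1))).cast ?_ rfl)).add
    ((HL.nat_mul 3 (hB.mul (u0.mul (u1.mul u2)))).cast ?_ ?_)).sub
    ((hA.mul (hB.mul (u1.mul (u2.mul u2)))).cast ?_ rfl)).sub
    ((hB.mul (u1.mul (u1.mul u1))).cast ?_ rfl)).add
    ((hB.mul (hB.mul (u2.mul (u2.mul u2)))).cast ?_ rfl)
  all_goals (push_cast; ring)

end leadmul

section norm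

variable {K L : Type} [Field K] [Field L] [Algebra K L]

lemma norm_formula (bs : Module.Basis (Fin 3) K L) (θ : L)
    (hbs : ∀ i, bs i = (![1, θ, θ ^ 2] : Fin 3 → L) i) (A B : K)
    (hθ : θ ^ 3 + algebraMap K L A * θ + algebraMap K L B = 0) (c : Fin 3 → K) :
    Algebra.norm K (ev (algebraMap K L) θ c) = nmR A B c := by
  have hcoord : ∀ (x : L) (e : Fin 3 → K), x = ev (algebraMap K L) θ e → ∀ i, bs.repr x i = e i := by
    intro x e hx i
    have h1 : x = ∑ j, e j • bs j := by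
      rw [hx, ev, Fin.sum_univ_three, hbs, hbs, hbs]
      simp [Algebra.smul_def]
    rw [h1, map_sum, Finsupp.finsetSum_apply]
    simp only [map_smul, Module.Basis.repr_self, Finsupp.smul_apply, smul_eq_mul]
    rw [Finset.sum_eq_single i]
    · simp
    · intro j _ hj
      rw [Finsupp.single_eq_of_ne (by simpa using hj.symm)]
      simp
    · intro h
      exact absurd (Finset.mem_univ _) h
  rw [Algebra.norm_eq_matrix_det bs, Matrix.det_fin_three]
  have e0 : ∀ i, Algebra.leftMulMatrix bs (ev (algebraMap K L) θ c) i 0 = c i := by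
    intro i
    rw [Algebra.leftMulMatrix_eq_repr_mul]
    refine hcoord _ c ?_ i
    rw [hbs]
    simp
  have e1 : ∀ i, Algebra.leftMulMatrix bs (ev (algebraMap K L) θ c) i 1 =
      (![-(B * c 2), c 0 - A * c 2, c 1] : Fin 3 → K) i := by
    intro i
    rw [Algebra.leftMulMatrix_eq_repr_mul]
    refine hcoord _ _ ?_ i
    rw [hbs]
    simp [ev]
    linear_combination (algebraMap K L (c 2)) * hθ
  have e2 : ∀ i, Algebra.leftMulMatrix bs (ev (algebraMap K L) θ c) i 2 =
      (![-(B * c 1), -(A * c 1) - B * c 2, c 0 - A * c 2] : Fin 3 → K) i := by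
    intro i
    rw [Algebra.leftMulMatrix_eq_repr_mul]
    refine hcoord _ _ ?_ i
    rw [hbs]
    simp [ev]
    linear_combination (algebraMap K L (c 1) + algebraMap K L (c 2) * θ) * hθ
  rw [e0, e0, e0, e1, e1, e1, e2, e2, e2]
  simp [nmR]
  ring

end norm

section resfield

variable {k : Type} [Field k]

/-- the basis `1, r, r ^ 2` of `k[X] / (f)` for a monic `f` of degree three -/
lemma exists_basis (f : k[X]) (hf : f.Monic) (hd : f.natDegree = 3) [Fact (Irreducible f)] :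
    ∃ bs : Module.Basis (Fin 3) k (AdjoinRoot f),
      ∀ i, bs i = (![1, AdjoinRoot.root f, AdjoinRoot.root f ^ 2] : Fin 3 → AdjoinRoot f) i := by
  have hdim : (AdjoinRoot.powerBasis' hf).dim = 3 := by
    rw [AdjoinRoot.powerBasis'_dim, hd]
  refine ⟨(AdjoinRoot.powerBasis' hf).basis.reindex (finCongr hdim), fun i => ?_⟩
  rw [Module.Basis.reindex_apply, PowerBasis.coe_basis]
  fin_cases i <;> simp [AdjoinRoot.powerBasis'_gen]

end resfield

end Pool.Agent.N26.PP
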